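import Pool.Agent.P8H50.YT.Main

/-!
`MP_ed556a_co`, question 2: every tree `T` satisfies `Y(T) ≤ 9 S(T) + P(T) + 8`.

`cP T`, `cS T`, `cY T` (from the starting file `Pool.Agent.Q117.YT.Defs`) are the numbers of copies
in `T` of the path on five vertices, of the star `K_{1,4}` and of the Y-shaped tree on five
vertices (`SimpleGraph.copyCount`: the number of subgraphs isomorphic to the given graph).

Proof. For a vertex `v` let `a = deg v - 1`, `s` the sum of `deg u - 1` over the neighbours `u`,
`j` the number of the neighbours that are not leaves and `w = a (a - 1)`. In a tree with a vertex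
that is not a leaf, `8 (9 S + P - Y) + 64` is the sum, over the vertices that are not leaves, of
`(2 s - w - 6)² + 2 (w - 2) (w - 7) - 4 (a - 2) (a - 4) j`. The only terms that can be negative are
those with `a = 3`, `j = 1`, `s = 6` (the value is `-4`); the only neighbour of such a vertex that
is not a leaf has degree seven, and the term of a vertex of degree seven is large.
-/

namespace Pool.Agent.Results.MP_ed556a_co.YTreeInequality

open SimpleGraph Pool.Agent.Q117.YT

/-- Question 2: every finite tree `T` satisfies `Y(T) ≤ 9 S(T) + P(T) + 8`. -/
theorem result (V : Type) [Fintype V] (T : SimpleGraph V) (hT : T.IsTree) :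
    cY T ≤ 9 * cS T + cP T + 8 := by
  classical
  exact Pool.Agent.P8H50.YT.tree_main hT

end Pool.Agent.Results.MP_ed556a_co.YTreeInequality
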